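import Pool.Agent.Lib.Pd47e08.Thr

/-!
The spectral threshold of the Kikuchi matrix tends to zero, with the optimal conjectured rate,
for every even order `r` at least four.
-/

open MeasureTheory ProbabilityTheory Matrix Filter

namespace Pool.Agent.Results.MP_d47e08_pr.EvenGeFour

/-- The Kikuchi matrix with signal strength `s` and Gaussians `Z`. -/
def kikuchi (n l r : ℕ) (s : ℝ) (Z : Finset (Fin n) → ℝ) :
    Matrix {K : Finset (Fin n) // K.card = l} {K : Finset (Fin n) // K.card = l} ℝ :=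
  Matrix.of fun I J => if (symmDiff I.1 J.1).card = r then s + Z (symmDiff I.1 J.1) else 0

/-- The largest eigenvalue of a real symmetric matrix, as the maximum of the quadratic form over
the unit sphere. -/
noncomputable def topEig {α : Type} [Fintype α] (M : Matrix α α ℝ) : ℝ :=
  sSup {t : ℝ | ∃ v : α → ℝ, v ⬝ᵥ v = 1 ∧ t = v ⬝ᵥ M *ᵥ v}

/-- The mean of the largest eigenvalue of the Kikuchi matrix, for independent standard Gaussians
(only those indexed by sets of size `r` enter). -/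
noncomputable def meanTop (r l n : ℕ) (s : ℝ) : ℝ :=
  ∫ Z, topEig (kikuchi n l r s Z) ∂(Measure.pi fun _ : Finset (Fin n) => gaussianReal 0 1)

/-- The lower limit in `n` of the ratio of the mean top eigenvalues at signal `m n^(-r/4)` and at
zero signal. -/
noncomputable def rho (r l : ℕ) (m : ℝ) : EReal :=
  liminf (fun n : ℕ =>
    ((meanTop r l n (m * (n : ℝ) ^ (-(r : ℝ) / 4)) / meanTop r l n 0 : ℝ) : EReal)) atTop

/-- The rescaled spectral threshold (the infimum of the empty set is `⊤`). -/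
noncomputable def muNat (r l : ℕ) : EReal :=
  sInf {x : EReal | ∃ m : ℝ, 0 ≤ m ∧ 1 < rho r l m ∧ x = (m : EReal)}

open Pool.Agent.Lib.Pd47e08 in
lemma topEig_eq (n l r : ℕ) (s : ℝ) (Z : Finset (Fin n) → ℝ) :
    topEig (kikuchi n l r s Z) = lam l r (fun S => s + Z S) := by
  unfold topEig lam
  have h : ∀ v : {K : Finset (Fin n) // K.card = l} → ℝ,
      v ⬝ᵥ (kikuchi n l r s Z) *ᵥ v = qf r (fun S => s + Z S) v := by
    intro v
    unfold qf kikuchi
    simp only [dotProduct, Matrix.mulVec, Matrix.of_apply]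
    apply Finset.sum_congr rfl
    intro I _
    rw [Finset.mul_sum]
    apply Finset.sum_congr rfl
    intro J _
    split_ifs <;> ring
  simp only [h]

/-- For every even `r` at least four there is a constant `C` with
`0 ≤ μ_{r,l} ≤ C l^(-(r-2)/4)` for all `l` at least `r/2`. -/
theorem result : ∀ r : ℕ, Even r → 4 ≤ r → ∃ C : ℝ, 0 < C ∧ ∀ l : ℕ, r / 2 ≤ l →
    0 ≤ muNat r l ∧ muNat r l ≤ ((C * (l : ℝ) ^ (-((r : ℝ) - 2) / 4) : ℝ) : EReal) := by
  intro r hr hr4
  obtain ⟨k, hk⟩ := hr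
  have hk2 : r = 2 * k := by omega
  subst hk2
  clear hk
  have hk1 : 1 ≤ k := by omega
  obtain ⟨c, hc, hmain⟩ := Pool.Agent.Lib.Pd47e08.signal_noise hk1
  refine ⟨2 / c, by positivity, fun l hl => ⟨?_, ?_⟩⟩
  · apply le_sInf
    rintro x ⟨m, hm, _, rfl⟩
    exact_mod_cast hm
  · have hkl : k ≤ l := by omega
    have hlR : (0 : ℝ) < l := by
      have : 0 < l := by omega
      exact_mod_cast this
    apply sInf_le
    refine ⟨2 / c * (l : ℝ) ^ (-(((2 * k : ℕ) : ℝ) - 2) / 4), by positivity, ?_, rfl⟩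
    set m : ℝ := 2 / c * (l : ℝ) ^ (-(((2 * k : ℕ) : ℝ) - 2) / 4) with hm
    have hm0 : 0 ≤ m := by positivity
    have hL : √((l : ℝ) ^ (k - 1)) = (l : ℝ) ^ ((((2 * k : ℕ) : ℝ) - 2) / 4) := by
      rw [Real.sqrt_eq_rpow, ← Real.rpow_natCast, ← Real.rpow_mul hlR.le]
      congr 1
      rw [Nat.cast_sub hk1]
      push_cast
      ring
    have hcm : c * m * √((l : ℝ) ^ (k - 1)) = 2 := by
      rw [hL, hm]
      have e : (l : ℝ) ^ (-(((2 * k : ℕ) : ℝ) - 2) / 4) * (l : ℝ) ^ ((((2 * k : ℕ) : ℝ) - 2) / 4)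
          = 1 := by
        rw [← Real.rpow_add hlR]
        rw [show -(((2 * k : ℕ) : ℝ) - 2) / 4 + (((2 * k : ℕ) : ℝ) - 2) / 4 = 0 by ring,
          Real.rpow_zero]
      calc c * (2 / c * (l : ℝ) ^ (-(((2 * k : ℕ) : ℝ) - 2) / 4))
            * (l : ℝ) ^ ((((2 * k : ℕ) : ℝ) - 2) / 4)
          = (c * (2 / c)) * ((l : ℝ) ^ (-(((2 * k : ℕ) : ℝ) - 2) / 4)
            * (l : ℝ) ^ ((((2 * k : ℕ) : ℝ) - 2) / 4)) := by ring
        _ = 2 := by rw [e]; field_simp
    have hev := hmain l hkl m hm0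
    have h2 : ∀ᶠ n : ℕ in atTop, ((2 : ℝ) : EReal) ≤
        ((meanTop (2 * k) l n (m * (n : ℝ) ^ (-((2 * k : ℕ) : ℝ) / 4)) / meanTop (2 * k) l n 0
          : ℝ) : EReal) := by
      filter_upwards [hev, eventually_gt_atTop 0] with n hn hn0
      have hnR : (0 : ℝ) < n := by exact_mod_cast hn0
      rw [EReal.coe_le_coe_iff]
      unfold meanTop
      simp only [topEig_eq]
      have e0 : (fun Z : Finset (Fin n) → ℝ =>
          Pool.Agent.Lib.Pd47e08.lam l (2 * k) (fun S => 0 + Z S))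
          = fun Z => Pool.Agent.Lib.Pd47e08.lam l (2 * k) Z := by
        funext Z
        simp
      have e1 : (n : ℝ) ^ (-((2 * k : ℕ) : ℝ) / 4) = (√((n : ℝ) ^ k))⁻¹ := by
        rw [Real.sqrt_eq_rpow, ← Real.rpow_natCast, ← Real.rpow_mul hnR.le,
          ← Real.rpow_neg hnR.le]
        congr 1
        push_cast
        ring
      rw [e0, e1, le_div_iff₀ hn.1]
      have := hn.2
      rw [hcm] at this
      exact this
    unfold rho
    have h3 : ((2 : ℝ) : EReal) ≤ liminf (fun n : ℕ =>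
        ((meanTop (2 * k) l n (m * (n : ℝ) ^ (-((2 * k : ℕ) : ℝ) / 4)) / meanTop (2 * k) l n 0
          : ℝ) : EReal)) atTop := le_liminf_of_le (by isBoundedDefault) h2
    refine lt_of_lt_of_le ?_ h3
    have : ((1 : ℝ) : EReal) < ((2 : ℝ) : EReal) := by
      rw [EReal.coe_lt_coe_iff]
      norm_num
    exact_mod_cast this

end Pool.Agent.Results.MP_d47e08_pr.EvenGeFour
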